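import Pool.Agent.MP_6a61d2_nt.q2.Par

/-! Two independent points over a quadratic field. -/

set_option linter.unusedSectionVars false
set_option linter.unusedVariables false

namespace Pool.Agent.MP_6a61d2_nt

open WeierstrassCurve.Affine Polynomial

variable {F K : Type} [Field F] [Field K] [CharZero F] [CharZero K] [DecidableEq F]
  [DecidableEq K] {v : AbsoluteValue F ℝ} {p : ℕ}

/-- The second leg as a function of `s = T ^ 2`. -/
def pV (s : F) : F := (6 * s + 1) ^ 2 - s * (s + 6) ^ 2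

/-- The numerator of the `x`-coordinate of the point. -/
def pN (s : F) : F :=
  4 * pV s ^ 2 * (s + 6) ^ 3 * (6 * s + 1) * (5 * s ^ 4 - 78 * s ^ 3 + 31 * s ^ 2 - 9 * s + 2) ^ 2

/-- The `x`-coordinate of the point attached to a second parameter with the same curve. -/
def xx (s r : F) : F := ((6 * s + 1) ^ 2 / (6 * r + 1) ^ 2) ^ 4 * (pN r / pD r ^ 2)

section

variable (na : IsNonarchimedean v) {s : F} {m : ℤ} (h : Sp v s m)
include na h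

lemma sp_l : Sp v (6 * s + 1) (6 * m + 1) := by
  have := h.poly na (6 * X + 1)
  simp only [map_mul, map_add, map_ofNat, map_one, aeval_X, eval_mul, eval_add, eval_ofNat,
    eval_one, eval_X] at this
  exact this

lemma sp_D : Sp v (pD s) (2 * m ^ 4 - 9 * m ^ 3 + 31 * m ^ 2 - 78 * m + 5) := by
  have := h.poly na (2 * X ^ 4 - 9 * X ^ 3 + 31 * X ^ 2 - 78 * X + 5)
  simp only [map_mul, map_add, map_sub, map_pow, map_ofNat, aeval_X, eval_mul, eval_add,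
    eval_sub, eval_pow, eval_ofNat, eval_X] at this
  exact this

lemma sp_V : Sp v (pV s) ((6 * m + 1) ^ 2 - m * (m + 6) ^ 2) := by
  have := h.poly na ((6 * X + 1) ^ 2 - X * (X + 6) ^ 2)
  simp only [map_mul, map_add, map_sub, map_pow, map_ofNat, map_one, aeval_X, eval_mul,
    eval_add, eval_sub, eval_pow, eval_ofNat, eval_one, eval_X] at this
  exact this

lemma sp_W : Sp v ((6 * s + 1) ^ 2 + s * (s + 6) ^ 2) ((6 * m + 1) ^ 2 + m * (m + 6) ^ 2) := by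
  have := h.poly na ((6 * X + 1) ^ 2 + X * (X + 6) ^ 2)
  simp only [map_mul, map_add, map_pow, map_ofNat, map_one, aeval_X, eval_mul,
    eval_add, eval_pow, eval_ofNat, eval_one, eval_X] at this
  exact this

lemma sp_U : Sp v (16 * s ^ 2 * (s + 6) ^ 4 * (6 * s + 1) ^ 4)
    (16 * m ^ 2 * (m + 6) ^ 4 * (6 * m + 1) ^ 4) := by
  have := h.poly na (16 * X ^ 2 * (X + 6) ^ 4 * (6 * X + 1) ^ 4)
  simp only [map_mul, map_add, map_pow, map_ofNat, map_one, aeval_X, eval_mul,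
    eval_add, eval_pow, eval_ofNat, eval_one, eval_X] at this
  exact this

lemma sp_N : Sp v (pN s) (4 * ((6 * m + 1) ^ 2 - m * (m + 6) ^ 2) ^ 2 * (m + 6) ^ 3 * (6 * m + 1) *
    (5 * m ^ 4 - 78 * m ^ 3 + 31 * m ^ 2 - 9 * m + 2) ^ 2) := by
  have := h.poly na (4 * ((6 * X + 1) ^ 2 - X * (X + 6) ^ 2) ^ 2 * (X + 6) ^ 3 * (6 * X + 1) *
      (5 * X ^ 4 - 78 * X ^ 3 + 31 * X ^ 2 - 9 * X + 2) ^ 2)
  simp only [map_mul, map_add, map_sub, map_pow, map_ofNat, map_one, aeval_X, eval_mul,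
    eval_add, eval_sub, eval_pow, eval_ofNat, eval_one, eval_X] at this
  exact this

lemma sp_Dl : Sp v (pDl s) (-3 * (8 * m ^ 2 - 359 * m + 8)) := by
  have := h.poly na (-3 * (8 * X ^ 2 - 359 * X + 8))
  simp only [map_mul, map_add, map_sub, map_pow, map_neg, map_ofNat, aeval_X, eval_mul,
    eval_add, eval_sub, eval_pow, eval_neg, eval_ofNat, eval_X] at this
  exact this

end

lemma pu_four (t : F) : pu t ^ 4 = 16 * (t ^ 2) ^ 2 * (t ^ 2 + 6) ^ 4 * (6 * t ^ 2 + 1) ^ 4 := by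
  rw [pu]; ring

lemma tor19 (hv : PV 19 v) {t : F} (hs : Sp v (t ^ 2) 6) :
    (fam t).Δ ≠ 0 ∧ (∃ f : ZMod 2 × ZMod 8 →+ (fam t).Point, Function.Injective f) ∧
      Finite (AddCommGroup.torsion (fam t).Point) ∧
      Nat.card (AddCommGroup.torsion (fam t).Point) ≤ 16 ∧
      Sp v (pu t ^ 4 + pv t ^ 4) 15 ∧ Sp v (pu t ^ 4 * pv t ^ 4) 6 := by
  have na := hv.na
  have su : Sp v (pu t ^ 4) 4 := by
    rw [pu_four]
    exact (sp_U na hs).congr hv (by decide)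
  have sv : Sp v (pv t) 11 := (sp_V na hs).congr hv (by decide)
  have sa : Sp v (pu t ^ 4 + pv t ^ 4) 15 := (su.add na (sv.pow na 4)).congr hv (by decide)
  have sb : Sp v (pu t ^ 4 * pv t ^ 4) 6 := (su.mul na (sv.pow na 4)).congr hv (by decide)
  have hΔ : (fam t).Δ ≠ 0 := by
    rw [fam, cv_delta]
    have := (sa.pow na 2).sub na ((sp_int na 4).mul na sb)
    exact mul_ne_zero (mul_ne_zero (by norm_num) (pow_ne_zero 2 (sb.ne hv (by decide))))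
      (by simpa using this.ne hv (by decide))
  obtain ⟨c1, c2⟩ := tors_card (by norm_num) hv (by decide) sa sb (by decide) (by decide)
    (Finset.univ.filter fun z : ZMod 19 × ZMod 19 =>
      z.2 ^ 2 = z.1 ^ 3 + (15 : ℤ) * z.1 ^ 2 + (6 : ℤ) * z.1)
    (fun x y h => Finset.mem_filter.mpr ⟨Finset.mem_univ _, h⟩)
  have c3 : (Finset.univ.filter fun z : ZMod 19 × ZMod 19 =>
      z.2 ^ 2 = z.1 ^ 3 + (15 : ℤ) * z.1 ^ 2 + (6 : ℤ) * z.1).card = 15 := by decide +kernel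
  refine ⟨hΔ, tors_hom (u := pu t) (v := pv t)
    (w := (6 * t ^ 2 + 1) ^ 2 + t ^ 2 * (t ^ 2 + 6) ^ 2) (by rw [pu, pv]; ring)
    (fun k => su.ne hv (by decide) (by rw [k]; ring)) (sv.ne hv (by decide))
    ((sp_W na hs).ne hv (by decide)) (fun k => ?_) hΔ, c1, by rw [c3] at c2; exact c2, sa, sb⟩
  refine (su.sub na (sv.pow na 4)).ne hv (by decide) ?_
  rw [eq_neg_of_add_eq_zero_left k]
  ring

lemma tors_surj {A : Type} [AddCommGroup A] (f : ZMod 2 × ZMod 8 →+ A) (hf : Function.Injective f)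
    (h1 : Finite (AddCommGroup.torsion A)) (h2 : Nat.card (AddCommGroup.torsion A) ≤ 16) {R : A}
    (hR : IsOfFinAddOrder R) : ∃ z, f z = R := by
  let g : ZMod 2 × ZMod 8 →+ AddCommGroup.torsion A :=
    f.codRestrict _ fun z => f.isOfFinAddOrder (isOfFinAddOrder_of_finite z)
  have hg : Function.Injective g := fun s t e => hf (congrArg Subtype.val e)
  obtain ⟨z, hz⟩ := (hg.bijective_of_nat_card_le (by simpa using h2)).2 ⟨R, hR⟩
  exact ⟨z, congrArg Subtype.val hz⟩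

lemma other_root {T δ : F} (hδ : δ ^ 2 = pDl (T ^ 2)) (hl : 6 * T ^ 2 + 1 ≠ 0) {t : F}
    (ht : t = (35 * T + δ) / (2 * (6 * T ^ 2 + 1))) :
    t * (t ^ 2 + 6) * (6 * T ^ 2 + 1) = T * (T ^ 2 + 6) * (6 * t ^ 2 + 1) := by
  have e : 2 * (6 * T ^ 2 + 1) * t = 35 * T + δ := by rw [ht]; field_simp
  have q : (6 * T ^ 2 + 1) * t ^ 2 - 35 * T * t + (T ^ 2 + 6) = 0 := by
    apply mul_left_cancel₀ hl
    rw [pDl] at hδ
    linear_combination (1 / 4 : F) * hδ +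
      (1 / 4 : F) * (2 * (6 * T ^ 2 + 1) * t - 35 * T + δ) * e
  linear_combination (t - T) * q

lemma other_point {T t : F}
    (h : t * (t ^ 2 + 6) * (6 * T ^ 2 + 1) = T * (T ^ 2 + 6) * (6 * t ^ 2 + 1))
    (hl : 6 * t ^ 2 + 1 ≠ 0) (hD : pD (t ^ 2) ≠ 0) :
    ∃ y : F, y ^ 2 = fl (pu T ^ 4 + pv T ^ 4) (pu T ^ 4 * pv T ^ 4) (xx (T ^ 2) (t ^ 2)) := by
  obtain ⟨y, hy⟩ := point_eq t hD
  change y ^ 2 = fl _ _ (pN (t ^ 2) / pD (t ^ 2) ^ 2) at hy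
  rw [xx]
  obtain ⟨ρ, hρ⟩ : ∃ ρ, ρ = (6 * T ^ 2 + 1) ^ 2 / (6 * t ^ 2 + 1) ^ 2 := ⟨_, rfl⟩
  have r : ρ * (6 * t ^ 2 + 1) ^ 2 = (6 * T ^ 2 + 1) ^ 2 := by rw [hρ]; field_simp
  have eu : pu T = ρ * pu t := by
    apply mul_left_cancel₀ hl
    rw [pu, pu]
    linear_combination (-2 * t * (t ^ 2 + 6)) * r - 2 * (6 * T ^ 2 + 1) * h
  have ev : pv T = ρ * pv t := by
    apply mul_left_cancel₀ (pow_ne_zero 2 hl)
    rw [pv, pv]
    linear_combination (t ^ 2 * (t ^ 2 + 6) ^ 2 - (6 * t ^ 2 + 1) ^ 2) * r +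
      (t * (t ^ 2 + 6) * (6 * T ^ 2 + 1) + T * (T ^ 2 + 6) * (6 * t ^ 2 + 1)) * h
  rw [← hρ, eu, ev]
  generalize pN (t ^ 2) / pD (t ^ 2) ^ 2 = x at hy ⊢
  refine ⟨ρ ^ 6 * y, ?_⟩
  rw [mul_pow, hy, fl, fl]
  ring

lemma sp_root (hv : PV 19 v) {T δ : F} (hδ : δ ^ 2 = pDl (T ^ 2)) (hs : Sp v (T ^ 2) 6) {e k : ℤ}
    (he : Sp v (T * δ) e) (hk : (19 : ℤ) ∣ 1225 * 6 + 70 * e + 7 - (2 * (6 * 6 + 1)) ^ 2 * k) :
    Sp v (((35 * T + δ) / (2 * (6 * T ^ 2 + 1))) ^ 2) k := by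
  have na := hv.na
  have s1 := (((sp_int na 1225).mul na hs).add na ((sp_int na 70).mul na he)).add na
    ((sp_Dl na hs).congr hv (n := 7) (by decide))
  have s2 := ((sp_int na 2).mul na (sp_l na hs)).pow na 2
  have := s1.div hv s2 (by decide) hk
  rw [div_pow, show (35 * T + δ) ^ 2 = 1225 * T ^ 2 + 70 * (T * δ) + δ ^ 2 by ring, hδ]
  simpa using this

lemma sp_xx (hv : PV 19 v) {s r : F} (hs : Sp v s 6) {k ρ q : ℤ} (hr : Sp v r k)
    (h1 : ¬(19 : ℤ) ∣ (6 * k + 1) ^ 2) (h2 : (19 : ℤ) ∣ (6 * 6 + 1) ^ 2 - (6 * k + 1) ^ 2 * ρ)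
    (h3 : ¬(19 : ℤ) ∣ (2 * k ^ 4 - 9 * k ^ 3 + 31 * k ^ 2 - 78 * k + 5) ^ 2)
    (h4 : (19 : ℤ) ∣ 4 * ((6 * k + 1) ^ 2 - k * (k + 6) ^ 2) ^ 2 * (k + 6) ^ 3 * (6 * k + 1) *
      (5 * k ^ 4 - 78 * k ^ 3 + 31 * k ^ 2 - 9 * k + 2) ^ 2 -
      (2 * k ^ 4 - 9 * k ^ 3 + 31 * k ^ 2 - 78 * k + 5) ^ 2 * q) : Sp v (xx s r) (ρ ^ 4 * q) := by
  have na := hv.na
  exact ((((sp_l na hs).pow na 2).div hv ((sp_l na hr).pow na 2) h1 h2).pow na 4).mul na
    ((sp_N na hr).div hv ((sp_D na hr).pow na 2) h3 h4)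

lemma sp_dbl (na : IsNonarchimedean v) {a b x1 x2 : F} {a0 b0 m1 m2 : ℤ} (ha : Sp v a a0)
    (hb : Sp v b b0) (h1 : Sp v x1 m1) (h2 : Sp v x2 m2) :
    Sp v ((x1 ^ 2 - b) ^ 2 * fl a b x2) ((m1 ^ 2 - b0) ^ 2 * (m2 ^ 3 + a0 * m2 ^ 2 + b0 * m2)) :=
  (((h1.pow na 2).sub na hb).pow na 2).mul na
    (((h2.pow na 3).add na (ha.mul na (h2.pow na 2))).add na (hb.mul na h2))

theorem indep (φ : ℚ →+* K) (σ : K →+* K) (hσ : ∀ z, σ (σ z) = z) {w : AbsoluteValue K ℝ}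
    {v1 v2 : AbsoluteValue ℚ ℝ} (hw : PV 19 w) (h1 : PV 19 v1) (h2 : PV 131611 v2)
    (hw1 : ∀ z, w (φ z) = v1 z) {T : ℚ} {δ : K} (hδ : δ ^ 2 = pDl (φ T ^ 2)) (hσδ : σ δ = -δ)
    (s1 : Sp v1 (T ^ 2) 6) (s2 : Sp v2 (T ^ 2) 25) :
    (fam T).Δ ≠ 0 ∧ Nonempty (AddCommGroup.torsion (fam T).Point ≃+ ZMod 2 × ZMod 8) ∧
      1 ≤ Module.rank ℤ (fam T).Point ∧
      Nonempty (AddCommGroup.torsion (fam (φ T)).Point ≃+ ZMod 2 × ZMod 8) ∧
      2 ≤ Module.rank ℤ (fam (φ T)).Point := by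
  have na := hw.na
  have hφ : ∀ z, σ (φ z) = φ z := fun z => RingHom.congr_fun (RingHom.ext_rat (σ.comp φ) φ) z
  have sK : Sp w (φ T ^ 2) 6 := by
    rw [Sp, ← map_pow, ← map_intCast φ, ← map_sub, hw1]
    exact s1
  obtain ⟨hΔ, ⟨f, hf⟩, fin, card, -, -⟩ := tor19 h1 s1
  obtain ⟨hΔ', -, fin', card', sa, sb⟩ := tor19 hw sK
  have ha : φ (pu T ^ 4 + pv T ^ 4) = pu (φ T) ^ 4 + pv (φ T) ^ 4 := by simp [pu, pv, map_ofNat]
  have hb : φ (pu T ^ 4 * pv T ^ 4) = pu (φ T) ^ 4 * pv (φ T) ^ 4 := by simp [pu, pv, map_ofNat]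
  have ha' : σ (pu (φ T) ^ 4 + pv (φ T) ^ 4) = pu (φ T) ^ 4 + pv (φ T) ^ 4 := by rw [← ha, hφ]
  have hb' : σ (pu (φ T) ^ 4 * pv (φ T) ^ 4) = pu (φ T) ^ 4 * pv (φ T) ^ 4 := by rw [← hb, hφ]
  have hg : Function.Injective ((pm φ ha hb).comp f) := (pm_inj φ ha hb).comp hf
  have hD : pD (T ^ 2) ≠ 0 := (sp_D h1.na s1).ne h1 (by decide)
  obtain ⟨y0, hy0⟩ := point_eq T hD
  change y0 ^ 2 = fl _ _ (pN (T ^ 2) / pD (T ^ 2) ^ 2) at hy0
  have k0 := cv_ns hΔ hy0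
  have nt : ¬IsOfFinAddOrder (Point.some _ _ k0) := by
    intro h
    have u4 : v2 (pu T ^ 4) ≤ 1 := by
      rw [pu_four]
      exact (sp_U h2.na s2).le h2.na
    have v4 : v2 (pv T ^ 4) ≤ 1 := ((sp_V h2.na s2).pow h2.na 4).le h2.na
    refine Point.some_ne_zero k0 (Big.eq_zero (by norm_num) h2
      ⟨na_add_le h2.na u4 v4, mul_le_both u4 v4⟩ ((big_some k0).mpr ?_) h)
    have e2 := (sp_D h2.na s2).small h2 (by decide)
    have e3 := v2.pos hD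
    rw [map_div₀, (sp_N h2.na s2).unit h2 (by decide), v2.map_pow, one_lt_div (by positivity)]
    nlinarith
  refine ⟨hΔ, tors_equiv f hf fin card, one_le_rank nt, tors_equiv _ hg fin' card', ?_⟩
  wlog he : Sp w (φ T * δ) 2 generalizing δ
  · refine this (δ := -δ) (by rw [neg_sq, hδ]) (by rw [map_neg, hσδ]) ?_
    have q : w ((φ T * δ - (2 : ℤ)) * (φ T * -δ - (2 : ℤ))) < 1 := by
      have := ((sp_int na 4).sub na (sK.mul na (sp_Dl na sK))).small hw (by decide)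
      rwa [← hδ, show ((4 : ℤ) : K) - φ T ^ 2 * δ ^ 2 =
        (φ T * δ - (2 : ℤ)) * (φ T * -δ - (2 : ℤ)) by push_cast; ring] at this
    exact (mul_lt_one_or q).resolve_left he
  have he' : Sp w (φ T * -δ) (-2) := by
    rw [Sp, show φ T * -δ - ((-2 : ℤ) : K) = -(φ T * δ - ((2 : ℤ) : K)) by push_cast; ring,
      w.map_neg]
    exact he
  have r1 := sp_root hw hδ sK he (k := 17) (by decide)
  have r2 := sp_root hw (δ := -δ) (by rw [neg_sq, hδ]) sK he' (k := 4) (by decide)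
  obtain ⟨t, ht⟩ : ∃ t, t = (35 * φ T + δ) / (2 * (6 * φ T ^ 2 + 1)) := ⟨_, rfl⟩
  have hσt : (35 * φ T + -δ) / (2 * (6 * φ T ^ 2 + 1)) = σ t := by
    rw [ht]
    simp only [map_div₀, map_add, map_mul, map_pow, map_ofNat, map_one, hφ, hσδ]
  rw [← ht] at r1
  rw [hσt] at r2
  obtain ⟨y, hy⟩ := other_point (other_root hδ ((sp_l na sK).ne hw (by decide)) ht)
    ((sp_l na r1).ne hw (by decide)) ((sp_D na r1).ne hw (by decide))
  have k := cv_ns hΔ' hy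
  have x1 := sp_xx hw sK r1 (ρ := 11) (q := 14) (by decide) (by decide) (by decide) (by decide)
  have x2 := sp_xx hw sK r2 (ρ := 9) (q := 12) (by decide) (by decide) (by decide) (by decide)
  have ex : xx (φ T ^ 2) (σ t ^ 2) = σ (xx (φ T ^ 2) (t ^ 2)) := by
    simp only [xx, pN, pV, pD, map_div₀, map_add, map_sub, map_mul, map_pow, map_ofNat, map_one, hφ]
  rw [ex] at x2
  have li : LinearIndependent ℤ ![pm φ ha hb (Point.some _ _ k0), Point.some _ _ k] := by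
    rw [LinearIndependent.pair_iff]
    intro m n e
    have e' := congrArg (pm σ ha' hb') e
    rw [map_add, map_zsmul, map_zsmul, map_zero, pm_fix φ ha hb σ hφ] at e'
    have n0 : n = 0 := by
      by_contra n0
      have hR : IsOfFinAddOrder (Point.some _ _ k - pm σ ha' hb' (Point.some _ _ k)) :=
        isOfFinAddOrder_iff_zsmul_eq_zero.mpr ⟨n, n0, by
          rw [zsmul_sub, add_left_cancel (e.trans e'.symm), sub_self]⟩
      obtain ⟨z, hz⟩ := tors_surj _ hg fin' card' hR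
      obtain ⟨Z, hZ⟩ : ∃ Z, pm φ ha hb Z = _ := ⟨f z, hz⟩
      have fx := pm_fix φ ha hb σ hφ ha' hb' Z
      rw [hZ, map_sub, pm_pm σ hσ] at fx
      have d2 : 2 • Point.some _ _ k = 2 • pm σ ha' hb' (Point.some _ _ k) := by
        rw [two_nsmul, two_nsmul, ← sub_eq_sub_iff_add_eq_add]
        exact fx.symm
      exact ((sp_dbl na sa sb x1 x2).sub na (sp_dbl na sa sb x2 x1)).ne hw (by decide)
        (dbl_eq _ _ d2)
    rw [n0, zero_zsmul, add_zero, ← map_zsmul, ← map_zero (pm φ ha hb)] at e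
    refine ⟨?_, n0⟩
    by_contra m0
    exact nt (isOfFinAddOrder_iff_zsmul_eq_zero.mpr ⟨m, m0, pm_inj φ ha hb e⟩)
  have := li.cardinal_le_rank
  rw [Cardinal.mk_fin] at this
  exact this

end Pool.Agent.MP_6a61d2_nt
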