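import Mathlib.NumberTheory.Padics.Hensel
import Mathlib.FieldTheory.KummerPolynomial
import Mathlib.FieldTheory.IntermediateField.Adjoin.Basic
import Mathlib.Analysis.Complex.Polynomial.Basic
import Mathlib.RingTheory.Int.Basic
import Pool.Agent.MP_6a61d2_nt.q2.Ind

/-! Infinitely many curves over each of infinitely many quadratic fields. -/

set_option linter.unusedSectionVars false
set_option linter.unusedVariables false

namespace Pool.Agent.MP_6a61d2_nt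

open WeierstrassCurve.Affine Polynomial IntermediateField

lemma fin_T (c : ℚ) : {T : ℚ | (fam T).c₄ ^ 3 = c * (fam T).Δ}.Finite := by
  obtain ⟨U, hU⟩ : ∃ U : ℚ[X], U = 2 * X * (X ^ 2 + 6) * (6 * X ^ 2 + 1) := ⟨_, rfl⟩
  obtain ⟨V, hV⟩ : ∃ V : ℚ[X], V = (6 * X ^ 2 + 1) ^ 2 - X ^ 2 * (X ^ 2 + 6) ^ 2 := ⟨_, rfl⟩
  have eU : ∀ T, eval T U = pu T := fun T => by simp [hU, pu]
  have eV : ∀ T, eval T V = pv T := fun T => by simp [hV, pv]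
  obtain ⟨q, hq⟩ : ∃ q : ℚ[X], ∀ T, eval T q = (fam T).c₄ ^ 3 - c * (fam T).Δ :=
    ⟨(16 * ((U ^ 4 + V ^ 4) ^ 2 - 3 * (U ^ 4 * V ^ 4))) ^ 3 -
      C c * (16 * (U ^ 4 * V ^ 4) ^ 2 * ((U ^ 4 + V ^ 4) ^ 2 - 4 * (U ^ 4 * V ^ 4))), fun T => by
      rw [fam, cv_c4, cv_delta]
      simp only [eval_sub, eval_mul, eval_add, eval_pow, eval_ofNat, eval_C, eU, eV]⟩
  have q0 : q ≠ 0 := by
    rintro rfl
    have := hq 0
    rw [fam, cv_c4, cv_delta] at this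
    norm_num [pu, pv] at this
  exact (finite_setOfPred_isRoot q0).subset fun T hT => (hq T).trans (sub_eq_zero.mpr hT)

lemma fin_w {d : ℚ} (hd : d ≠ 0) (e : ℚ) : {w : ℚ | d * w ^ 2 = e}.Finite := by
  have q0 : (C d * X ^ 2 - C e : ℚ[X]) ≠ 0 := fun h => hd (by simpa using congrArg (coeff · 2) h)
  exact (finite_setOfPred_isRoot q0).subset fun w hw => by simpa [sub_eq_zero] using hw

instance fact19 : Fact (Nat.Prime 19) := ⟨by norm_num⟩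

instance fact131611 : Fact (Nat.Prime 131611) := ⟨by norm_num⟩

instance fact5 : Fact (Nat.Prime 5) := ⟨by norm_num⟩

/-- The properties asked of a curve over the rationals. -/
def Good (K : Type) [Field K] [Algebra ℚ K] [DecidableEq K] (j : ℚ) : Prop :=
  ∃ (E : WeierstrassCurve ℚ) (_ : E.IsElliptic), E.j = j ∧
    Nonempty (AddCommGroup.torsion E.toAffine.Point ≃+ ZMod 2 × ZMod 8) ∧
    1 ≤ Module.rank ℤ E.toAffine.Point ∧
    Nonempty (AddCommGroup.torsion (E.baseChange K).toAffine.Point ≃+ ZMod 2 × ZMod 8) ∧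
    2 ≤ Module.rank ℤ (E.baseChange K).toAffine.Point

theorem j_infinite {K : Type} [Field K] [CharZero K] [Algebra ℚ K] [DecidableEq K]
    (σ : K →+* K) (hσ : ∀ z, σ (σ z) = z) (ι : K →+* ℚ_[19]) {c d : ℤ}
    (hd : d = -3 * (8 * (c ^ 2) ^ 2 - 359 * c ^ 2 + 8)) (d0 : d ≠ 0) (c0 : c ≠ 0) (c5 : 5 ∣ c)
    (c1 : 19 ∣ c - 5) (c2 : 131611 ∣ c - 5) {α : K} (hα : α ^ 2 = d) (hσα : σ α = -α) :
    {j : ℚ | Good K j}.Infinite := by
  intro fin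
  obtain ⟨w, hw, ew⟩ := exists_pv ι
  obtain ⟨v1, h1, e1⟩ := exists_pv (ι.comp (algebraMap ℚ K))
  obtain ⟨v2, h2, -⟩ := exists_pv (Rat.castHom ℚ_[131611])
  obtain ⟨v3, h3, -⟩ := exists_pv (Rat.castHom ℚ_[5])
  refine par_infinite hd c0 c5 c1 c2 h1 h2 h3 ?_
  refine Set.Finite.of_finite_fibers (fun z => (fam z.1).c₄ ^ 3 / (fam z.1).Δ)
    (fin.subset ?_) fun j hj => ?_
  · rintro _ ⟨⟨T, u⟩, ⟨k1, k2, k3⟩, rfl⟩
    have hφ : ∀ z, σ (algebraMap ℚ K z) = algebraMap ℚ K z := fun z =>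
      RingHom.congr_fun (RingHom.ext_rat (σ.comp (algebraMap ℚ K)) (algebraMap ℚ K)) z
    obtain ⟨r0, r1, r2, r3, r4⟩ := indep (algebraMap ℚ K) σ hσ hw h1 h2
      (fun z => by rw [ew, e1, RingHom.comp_apply]) (T := T) (δ := algebraMap ℚ K u * α)
      (by
        have := congrArg (algebraMap ℚ K) k1
        simp only [pDl, map_mul, map_add, map_sub, map_pow, map_neg, map_ofNat, map_intCast] at this
        rw [mul_pow, hα, mul_comm, this, pDl])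
      (by rw [map_mul, hφ, hσα, mul_neg]) k2 k3
    have bc : WeierstrassCurve.baseChange (fam T) K = fam (algebraMap ℚ K T) := by
      refine (cv_map (algebraMap ℚ K) _ _).trans ?_
      rw [fam]
      simp only [pu, pv, map_mul, map_add, map_sub, map_pow, map_ofNat, map_one]
    refine ⟨fam T, ⟨r0.isUnit⟩, ?_, r1, r2, ?_, ?_⟩
    · rw [WeierstrassCurve.j, Units.val_inv_eq_inv_val, WeierstrassCurve.coe_Δ']
      exact (div_eq_inv_mul _ _).symm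
    · rw [bc]; exact r3
    · rw [bc]; exact r4
  · refine Set.Finite.of_finite_fibers Prod.fst ((fin_T j).subset ?_) fun T hT => ?_
    · rintro _ ⟨⟨T, u⟩, ⟨⟨k1, k2, k3⟩, k4⟩, rfl⟩
      exact (div_eq_iff (tor19 h1 k2).1).mp k4
    · refine ((fin_w (Int.cast_ne_zero.mpr d0) (pDl (T ^ 2))).image fun u => (T, u)).subset ?_
      rintro ⟨T', u⟩ ⟨⟨⟨k1, -⟩, -⟩, rfl⟩
      exact ⟨u, k1, rfl⟩

lemma sqrt19 {d : ℤ} (h : 19 ∣ d - 7) : ∃ β : ℚ_[19], β ^ 2 = d := by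
  have n1 : ‖((64 - d : ℤ) : ℤ_[19])‖ < 1 :=
    (PadicInt.norm_int_lt_one_iff_dvd _).mpr (by push_cast; omega)
  have n2 : ‖((16 : ℤ) : ℤ_[19])‖ = 1 := PadicInt.norm_intCast_eq_one_iff.mpr (by decide)
  obtain ⟨z, hz, -⟩ := hensels_lemma (F := (X ^ 2 - C d : ℤ[X])) (a := (8 : ℤ_[19])) (by
    have e1 : aeval (8 : ℤ_[19]) (X ^ 2 - C d : ℤ[X]) = ((64 - d : ℤ) : ℤ_[19]) := by
      simp; norm_num
    have e2 : aeval (8 : ℤ_[19]) (derivative (X ^ 2 - C d : ℤ[X])) = ((16 : ℤ) : ℤ_[19]) := by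
      simp [map_ofNat]; norm_num
    rw [e1, e2, n2, one_pow]
    exact n1)
  have e : z ^ 2 = d := by simpa [sub_eq_zero] using hz
  exact ⟨z, by exact_mod_cast congrArg ((↑) : ℤ_[19] → ℚ_[19]) e⟩

lemma quad_field {d : ℤ} (hd : d < 0) {α : ℂ} (hα : α ^ 2 = d) :
    ∃ pb : PowerBasis ℚ ℚ⟮α⟯, (pb.gen : ℂ) = α ∧ minpoly ℚ pb.gen = X ^ 2 - C (d : ℚ) ∧
      pb.dim = 2 := by
  have mo : (X ^ 2 - C (d : ℚ)).Monic := monic_X_pow_sub_C _ two_ne_zero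
  have rt : aeval α (X ^ 2 - C (d : ℚ)) = 0 := by simp [hα]
  have mp : X ^ 2 - C (d : ℚ) = minpoly ℚ α := minpoly.eq_of_irreducible_of_monic
    (X_pow_sub_C_irreducible_of_prime Nat.prime_two fun b hb => by
      have : (d : ℚ) < 0 := by exact_mod_cast hd
      nlinarith [sq_nonneg b]) rt mo
  refine ⟨adjoin.powerBasis ⟨_, mo, rt⟩, rfl, (minpoly_gen ℚ α).trans mp.symm, ?_⟩
  rw [adjoin.powerBasis_dim, ← mp, natDegree_X_pow_sub_C]

lemma same_field {d e : ℤ} (hd : d < 0) (he : e < 0) {α β : ℂ} (hα : α ^ 2 = d) (hβ : β ^ 2 = e)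
    (h : β ∈ ℚ⟮α⟯) : ∃ y : ℚ, e = d * y ^ 2 := by
  obtain ⟨pb, g, -, dm⟩ := quad_field hd hα
  obtain ⟨f, hf, e1⟩ := pb.exists_eq_aeval ⟨β, h⟩
  obtain ⟨a, b, rfl⟩ := exists_eq_X_add_C_of_natDegree_le_one (p := f) (by omega)
  have e2 : β = a * α + b := by
    have := congrArg ((↑) : ℚ⟮α⟯ → ℂ) e1
    simpa [g] using this
  have d' : (d : ℚ) < 0 := by exact_mod_cast hd
  have e' : (e : ℚ) < 0 := by exact_mod_cast he
  have k : ((2 * a * b : ℚ) : ℂ) * α = ((e - d * a ^ 2 - b ^ 2 : ℚ) : ℂ) := by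
    rw [e2] at hβ
    push_cast
    linear_combination hβ - (a : ℂ) ^ 2 * hα
  have k2 : (2 * a * b) ^ 2 * d = (e - d * a ^ 2 - b ^ 2) ^ 2 := by
    have : ((2 * a * b : ℚ) : ℂ) ^ 2 * d = ((e - d * a ^ 2 - b ^ 2 : ℚ) : ℂ) ^ 2 := by
      rw [← k, mul_pow _ α, hα]
    exact_mod_cast this
  have k3 : (2 * a * b) ^ 2 = 0 := by
    nlinarith [sq_nonneg (2 * a * b), sq_nonneg (e - d * a ^ 2 - b ^ 2)]
  rw [k3, zero_mul] at k2
  have k4 := pow_eq_zero_iff two_ne_zero |>.mp k2.symm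
  rcases mul_eq_zero.mp (pow_eq_zero_iff two_ne_zero |>.mp k3) with h | h
  · have a0 : a = 0 := by linarith
    rw [a0] at k4
    nlinarith [sq_nonneg b]
  · exact ⟨a, by rw [h] at k4; linarith⟩

theorem field_good {c d : ℤ} (hd : d = -3 * (8 * (c ^ 2) ^ 2 - 359 * c ^ 2 + 8)) (d0 : d < 0)
    (c0 : c ≠ 0) (c5 : 5 ∣ c) (c1 : 19 ∣ c - 5) (c2 : 131611 ∣ c - 5) {α : ℂ} (hα : α ^ 2 = d) :
    Module.finrank ℚ ℚ⟮α⟯ = 2 ∧ {j : ℚ | Good ℚ⟮α⟯ j}.Infinite := by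
  obtain ⟨pb, g, mp, dm⟩ := quad_field d0 hα
  have g2 : pb.gen ^ 2 = d := Subtype.ext (by simpa [g] using hα)
  have dc : c - 5 ∣ d - 11901 := ⟨-3 * (c + 5) * (8 * c ^ 2 - 159), by rw [hd]; ring⟩
  obtain ⟨β, hβ⟩ := sqrt19 (d := d) (by have := c1.trans dc; omega)
  have r1 : aeval (-pb.gen) (minpoly ℚ pb.gen) = 0 := by simp [mp, g2]
  have r2 : aeval β (minpoly ℚ pb.gen) = 0 := by simp [mp, hβ]
  have inv : (pb.lift _ r1).comp (pb.lift _ r1) = AlgHom.id ℚ _ := pb.algHom_ext (by simp)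
  exact ⟨pb.finrank.trans dm, j_infinite (pb.lift _ r1).toRingHom (AlgHom.congr_fun inv)
    (pb.lift _ r2).toRingHom hd d0.ne c0 c5 c1 c2 g2 (pb.lift_gen _ r1)⟩

theorem quad_rank_two :
    {K : IntermediateField ℚ ℂ | Module.finrank ℚ K = 2 ∧ {j : ℚ | Good K j}.Infinite}.Infinite := by
  intro fin
  have ch : ∀ K : IntermediateField ℚ ℂ, ∃ e : ℤ, e ≠ 0 ∧ ∀ (d : ℤ) (α : ℂ), d < 0 → α ^ 2 = d →
      K = ℚ⟮α⟯ → ∃ y : ℚ, d = e * y ^ 2 := by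
    intro K
    by_cases h : ∃ (e : ℤ) (β : ℂ), e < 0 ∧ β ^ 2 = e ∧ K = ℚ⟮β⟯
    · obtain ⟨e, β, h1, h2, rfl⟩ := h
      exact ⟨e, h1.ne, fun d α k1 k2 k3 => same_field h1 k1 h2 k2
        (k3 ▸ mem_adjoin_simple_self ℚ α)⟩
    · exact ⟨1, one_ne_zero, fun d α k1 k2 k3 => absurd ⟨d, α, k1, k2, k3⟩ h⟩
  choose e e0 he using ch
  obtain ⟨M, M0, hM⟩ : ∃ M : ℤ, M ≠ 0 ∧ ∀ K ∈ fin.toFinset, e K ∣ M :=
    ⟨∏ K ∈ fin.toFinset, e K, Finset.prod_ne_zero_iff.mpr fun K _ => e0 K,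
      fun K hK => Finset.dvd_prod_of_mem _ hK⟩
  have M1 : 0 < M ^ 2 := by positivity
  obtain ⟨n, hn⟩ : ∃ n : ℤ, n = 5 * 19 * 131611 * M ^ 2 := ⟨_, rfl⟩
  obtain ⟨c, hc⟩ : ∃ c : ℤ, c = 5 + 11901 * (11901 * n) := ⟨_, rfl⟩
  obtain ⟨d, hd⟩ : ∃ d : ℤ, d = -3 * (8 * (c ^ 2) ^ 2 - 359 * c ^ 2 + 8) := ⟨_, rfl⟩
  have c7 : 7 ≤ c := by omega
  have d0 : d < 0 := by
    have : 49 ≤ c ^ 2 := by nlinarith
    nlinarith
  obtain ⟨α, hα⟩ := IsAlgClosed.exists_pow_nat_eq (d : ℂ) two_pos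
  obtain ⟨x, hx⟩ := hM _ (fin.mem_toFinset.mpr
    (field_good hd d0 (by omega) (by omega) (by omega) (by omega) hα))
  obtain ⟨y, hy⟩ := he _ d α d0 hα rfl
  generalize e ℚ⟮α⟯ = g at hx hy
  obtain ⟨q, hq⟩ : ∃ q : ℤ, q = -3 * (c + 5) * (8 * c ^ 2 - 159) := ⟨_, rfl⟩
  have dm : d = 11901 * (1 + 11901 * n * q) := by
    have : d - 11901 = (c - 5) * q := by rw [hd, hq]; ring
    rw [show c - 5 = 11901 * (11901 * n) by omega] at this
    linear_combination this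
  have sq : IsSquare ((1 + 11901 * n * q) * (11901 * g)) := by
    rw [← Rat.isSquare_intCast_iff]
    refine ⟨g * y, ?_⟩
    have : (d : ℚ) = 11901 * (1 + 11901 * n * q) := by exact_mod_cast dm
    push_cast
    linear_combination g * hy - g * this
  obtain ⟨r, hr⟩ := sq
  have cop : IsCoprime (1 + 11901 * n * q) (11901 * g) :=
    ⟨1, -(5 * 19 * 131611 * M * x * q), by
      rw [hn]; linear_combination (11901 * 5 * 19 * 131611 * M * q) * hx⟩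
  obtain ⟨a, ha | ha⟩ := Int.sq_of_isCoprime cop (hr.trans (sq r).symm)
  · nlinarith [sq_nonneg a]
  · rw [mul_assoc] at ha
    generalize n * q = z at ha
    have : a % 3 = 0 ∨ a % 3 = 1 ∨ a % 3 = 2 := by omega
    have k : a ^ 2 % 3 = 0 ∨ a ^ 2 % 3 = 1 := by
      rcases this with h | h | h <;> simp [pow_two, Int.mul_emod, h]
    omega

end Pool.Agent.MP_6a61d2_nt
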