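import Pool.Agent.MP_6a61d2_nt.Fam

/-! Further facts on `y ^ 2 = x ^ 3 + a x ^ 2 + b x`: change of field, translation by the kernel
of reduction, doubling. -/

set_option linter.unusedSectionVars false
set_option linter.unusedVariables false

namespace Pool.Agent.MP_6a61d2_nt

open WeierstrassCurve.Affine

variable {F K : Type} [Field F] [Field K] [CharZero F] [CharZero K] [DecidableEq F]
  [DecidableEq K] {a b : F} {v : AbsoluteValue F ℝ} {p : ℕ}

lemma some_ext {x y x' y' : F} {h : (cv a b).Nonsingular x y} {h' : (cv a b).Nonsingular x' y'}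
    (hx : x = x') (hy : y = y') : Point.some x y h = Point.some x' y' h' := by
  subst hx hy
  rfl

lemma cv_map (φ : F →+* K) (a b : F) : (cv a b).map φ = cv (φ a) (φ b) := by
  simp [cv, WeierstrassCurve.map]

lemma ns_map (φ : F →+* K) {a' b' : K} (ha : φ a = a') (hb : φ b = b') {x y : F}
    (h : (cv a b).Nonsingular x y) : (cv a' b').Nonsingular (φ x) (φ y) := by
  subst ha hb
  rw [← cv_map]
  exact (map_nonsingular _ φ.injective x y).mpr h

/-- The map on points induced by a homomorphism of fields. -/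
def pf (φ : F →+* K) {a' b' : K} (ha : φ a = a') (hb : φ b = b') :
    (cv a b).Point → (cv a' b').Point
  | .zero => .zero
  | .some x y h => .some (φ x) (φ y) (ns_map φ ha hb h)

lemma pf_add (φ : F →+* K) {a' b' : K} (ha : φ a = a') (hb : φ b = b') (P Q : (cv a b).Point) :
    pf φ ha hb (P + Q) = pf φ ha hb P + pf φ ha hb Q := by
  rcases P with _ | ⟨x1, y1, h1⟩
  · rw [← Point.zero_def, zero_add]
    exact (zero_add _).symm
  rcases Q with _ | ⟨x2, y2, h2⟩
  · rw [← Point.zero_def, add_zero]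
    exact (add_zero _).symm
  change _ = Point.some _ _ (ns_map φ ha hb h1) + Point.some _ _ (ns_map φ ha hb h2)
  by_cases hx : x1 = x2
  · subst hx
    by_cases hy : y1 = -y2
    · rw [Point.add_of_Y_eq rfl (by rw [cv_negY, hy]),
        Point.add_of_Y_eq rfl (by rw [cv_negY, hy, map_neg])]
      rfl
    · have e1 := (cv_eq _ _).mp h1.1
      have e2 := (cv_eq _ _).mp h2.1
      have hy' : y1 = y2 := by
        have : (y1 - y2) * (y1 + y2) = 0 := by linear_combination e1 - e2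
        rcases mul_eq_zero.mp this with h | h
        · exact sub_eq_zero.mp h
        · exact absurd (eq_neg_of_add_eq_zero_left h) hy
      subst hy'
      have h0 : y1 ≠ 0 := by
        rintro rfl
        exact hy neg_zero.symm
      obtain ⟨k, e⟩ := add_self_ne h1 h0
      obtain ⟨k', e'⟩ := add_self_ne (ns_map φ ha hb h1) ((map_ne_zero φ).mpr h0)
      rw [e, e']
      subst ha hb
      exact some_ext (by simp [sX, map_ofNat]) (by simp [sY, sX, map_ofNat])
  · obtain ⟨k, e⟩ := add_X_ne h1 h2 hx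
    obtain ⟨k', e'⟩ := add_X_ne (ns_map φ ha hb h1) (ns_map φ ha hb h2) (φ.injective.ne hx)
    rw [e, e']
    subst ha hb
    exact some_ext (by simp [sX]) (by simp [sY, sX])

/-- The homomorphism on points induced by a homomorphism of fields. -/
noncomputable def pm (φ : F →+* K) {a' b' : K} (ha : φ a = a') (hb : φ b = b') :
    (cv a b).Point →+ (cv a' b').Point where
  toFun := pf φ ha hb
  map_zero' := rfl
  map_add' := pf_add φ ha hb

lemma pm_some (φ : F →+* K) {a' b' : K} (ha : φ a = a') (hb : φ b = b') {x y : F}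
    (h : (cv a b).Nonsingular x y) :
    pm φ ha hb (Point.some x y h) = Point.some (φ x) (φ y) (ns_map φ ha hb h) := rfl

lemma pm_inj (φ : F →+* K) {a' b' : K} (ha : φ a = a') (hb : φ b = b') :
    Function.Injective (pm φ ha hb) := by
  refine (injective_iff_map_eq_zero _).mpr ?_
  rintro (_ | ⟨x, y, h⟩) e
  · rfl
  · exact absurd e (Point.some_ne_zero _)

lemma pm_fix (φ : F →+* K) {a' b' : K} (ha : φ a = a') (hb : φ b = b') (σ : K →+* K)
    (hσ : ∀ z, σ (φ z) = φ z) (ha' : σ a' = a') (hb' : σ b' = b') (P : (cv a b).Point) :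
    pm σ ha' hb' (pm φ ha hb P) = pm φ ha hb P := by
  rcases P with _ | ⟨x, y, h⟩
  · rfl
  · exact some_ext (hσ x) (hσ y)

lemma pm_pm (σ : K →+* K) (hσ : ∀ z, σ (σ z) = z) {a' b' : K} (ha' : σ a' = a') (hb' : σ b' = b')
    (P : (cv a' b').Point) : pm σ ha' hb' (pm σ ha' hb' P) = P := by
  rcases P with _ | ⟨x, y, h⟩
  · rfl
  · exact some_ext (hσ x) (hσ y)

lemma y_le (na : IsNonarchimedean v) (hl : v a ≤ 1 ∧ v b ≤ 1) {x y : F} (e : y ^ 2 = fl a b x)
    (i : v x ≤ 1) : v y ≤ 1 := by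
  apply le_of_sq_le
  rw [e, show fl a b x = x * x * x + a * (x * x) + b * x by rw [fl]; ring]
  exact na_add_le na (na_add_le na (mul_le_both (mul_le_both i i) i)
    (mul_le_both hl.1 (mul_le_both i i))) (mul_le_both hl.2 i)

/-- Adding a point of the kernel of reduction does not change the residue of `x`. -/
lemma add_big (na : IsNonarchimedean v) (hl : v a ≤ 1 ∧ v b ≤ 1) {x1 y1 x2 y2 x3 y3 : F}
    {h1 : (cv a b).Nonsingular x1 y1} {h2 : (cv a b).Nonsingular x2 y2}
    {h3 : (cv a b).Nonsingular x3 y3}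
    (e : Point.some x1 y1 h1 + Point.some x2 y2 h2 = Point.some x3 y3 h3)
    (i1 : v x1 ≤ 1) (i2 : 1 < v x2) : v (x3 - x1) < 1 := by
  have hx : x1 ≠ x2 := fun h => by rw [h] at i1; exact absurd i2 (not_lt.mpr i1)
  obtain ⟨k, e'⟩ := add_X_ne h1 h2 hx
  have ex := (Point.some.inj (e.symm.trans e')).1
  have e1 := (cv_eq _ _).mp h1.1
  have e2 := (cv_eq _ _).mp h2.1
  have j1 := y_le na hl e1 i1
  have j2 := big_y na hl e2 i2
  unfold fl at e1 e2
  have hx' := sub_ne_zero.mpr hx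
  have key : (x3 - x1) * (x2 - x1) ^ 2 =
      (b + (3 * (x1 * x1) + 2 * (a * x1))) * x2 - 2 * y1 * y2 + (b * x1 - x1 * x1 * x1) := by
    have : ((y1 - y2) / (x1 - x2)) ^ 2 * (x2 - x1) ^ 2 = (y1 - y2) ^ 2 := by
      field_simp
      ring
    rw [ex, sX]
    linear_combination this + e1 + e2
  have v2 : v 2 ≤ 1 := by simpa using na_nat na 2
  have v3 : v 3 ≤ 1 := by simpa using na_nat na 3
  have p2 : 0 < v x2 := zero_lt_one.trans i2
  have t0 : v x2 < v x2 ^ 2 := by nlinarith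
  have t1 : v y2 < v x2 ^ 2 := by
    refine lt_of_pow_lt_pow_left₀ 2 (by positivity) ?_
    rw [j2, ← pow_mul]
    exact pow_lt_pow_right₀ i2 (by norm_num)
  have B : v ((x3 - x1) * (x2 - x1) ^ 2) < v x2 ^ 2 := by
    rw [key]
    refine na_add_lt na (na_sub_lt na ?_ ?_) ?_
    · rw [v.map_mul]
      refine lt_of_le_of_lt (mul_le_of_le_one_left p2.le ?_) t0
      exact na_add_le na hl.2 (na_add_le na (mul_le_both v3 (mul_le_both i1 i1))
        (mul_le_both v2 (mul_le_both hl.1 i1)))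
    · rw [v.map_mul]
      exact lt_of_le_of_lt (mul_le_of_le_one_left (v.nonneg _) (mul_le_both v2 j1)) t1
    · exact lt_of_le_of_lt (na_sub_le na (mul_le_both hl.2 i1)
        (mul_le_both (mul_le_both i1 i1) i1)) (i2.trans t0)
  rw [v.map_mul, v.map_pow, na_sub_eq na (i1.trans_lt i2)] at B
  exact (mul_lt_iff_lt_one_left (by positivity)).mp B

/-- Translation by twice a point of the kernel of reduction. -/
lemma add_twice (na : IsNonarchimedean v) (hl : v a ≤ 1 ∧ v b ≤ 1) {x0 y0 : F}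
    (h0 : (cv a b).Nonsingular x0 y0) (i0 : v x0 = 1) {S : (cv a b).Point} (hS : Big v S)
    (hS0 : S ≠ 0) :
    ∃ x y h m, Point.some x0 y0 h0 + S + S = Point.some x y h ∧ x * x0 = m ^ 2 ∧
      ∀ w : AbsoluteValue F ℝ, IsNonarchimedean w → w a ≤ 1 ∧ w b ≤ 1 → w x0 ≤ 1 → Big w S →
        w (x - x0) < 1 := by
  rcases S with _ | ⟨x2, y2, h2⟩
  · exact absurd rfl hS0
  rw [big_some] at hS
  obtain ⟨L, m, x3, h3, e, -, -, -, -, s3⟩ := add_vieta h0 h2
    (fun h => by rw [← h.1, i0] at hS; exact lt_irrefl _ hS)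
  have c3 := add_big na hl e i0.le hS
  have i3 : v x3 = 1 := by
    rw [show x3 = x0 + (x3 - x0) by ring, na_add_eq na (by rwa [i0]), i0]
  obtain ⟨L', m', x4, h4, e', -, -, -, -, s4⟩ := add_vieta h3 h2
    (fun h => by rw [← h.1, i3] at hS; exact lt_irrefl _ hS)
  have n2 : x2 ≠ 0 := v.pos_iff.mp (zero_lt_one.trans hS)
  have n3 : x3 ≠ 0 := v.pos_iff.mp (by rw [i3]; exact zero_lt_one)
  refine ⟨x4, _, h4, m * m' / (x2 * x3), by rw [e, e'], ?_, fun w nw hw j0 hB => ?_⟩
  · rw [div_pow, mul_pow, ← s3, ← s4]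
    field_simp
  · rw [big_some] at hB
    have d3 := add_big nw hw e j0 hB
    have j3 : w x3 ≤ 1 := by
      rw [show x3 = x0 + (x3 - x0) by ring]
      exact na_add_le nw j0 d3.le
    have d4 := add_big nw hw e' j3 hB
    rw [show x4 - x0 = (x4 - x3) + (x3 - x0) by ring]
    exact na_add_lt nw d4 d3

/-- At a place of good reduction some multiple of a point lies in the kernel of reduction. -/
lemma big_multiple (hp : p.Prime) (hv : PV p v) (ha : v a ≤ 1) (hb : v b = 1)
    (hd : v (a ^ 2 - 4 * b) = 1) (h2 : v 2 = 1) (G : (cv a b).Point) :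
    ∃ m : ℕ, m ≠ 0 ∧ Big v (m • G) := by
  have na := hv.na
  have hl : v a ≤ 1 ∧ v b ≤ 1 := ⟨ha, hb.le⟩
  have : NeZero p := ⟨hp.ne_zero⟩
  have cls : ∀ P : (cv a b).Point, ∃ c : Option (ZMod p × ZMod p), (c = none ∧ Big v P) ∨
      ∃ x y h, ∃ m n : ℤ, P = Point.some x y h ∧ Sp v x m ∧ Sp v y n ∧
        c = some ((m : ZMod p), (n : ZMod p)) := by
    rintro (_ | ⟨x, y, h⟩)
    · exact ⟨none, Or.inl ⟨rfl, big_zero⟩⟩
    by_cases hx : v x ≤ 1
    · obtain ⟨m, hm⟩ := hv.res x hx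
      obtain ⟨n, hn⟩ := hv.res y (y_le na hl ((cv_eq _ _).mp h.1) hx)
      exact ⟨_, Or.inr ⟨x, y, h, m, n, rfl, hm, hn, rfl⟩⟩
    · exact ⟨none, Or.inl ⟨rfl, (big_some h).mpr (not_le.mp hx)⟩⟩
  choose c hc using cls
  have cl : ∀ {r s : F} {m n : ℤ}, Sp v r m → Sp v s n → (m : ZMod p) = n → v (r - s) < 1 := by
    intro r s m n hr hs e
    refine (hr.sub na hs).small hv ((ZMod.intCast_zmod_eq_zero_iff_dvd _ p).mp ?_)
    push_cast
    exact sub_eq_zero.mpr e
  have key : ∀ P Q, c P = c Q → Big v (P - Q) := by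
    intro P Q e
    rcases hc P with ⟨e1, b1⟩ | ⟨x1, y1, k1, m1, n1, rfl, s1, t1, e1⟩ <;>
      rcases hc Q with ⟨e2, b2⟩ | ⟨x2, y2, k2, m2, n2, rfl, s2, t2, e2⟩
    · rw [sub_eq_add_neg]
      exact (b1.add na hl b2.neg.1 (le_max_left _ _) (le_max_right _ _)).1
    · rw [e1, e2] at e
      exact absurd e (by simp)
    · rw [e1, e2] at e
      exact absurd e (by simp)
    · rw [e1, e2, Option.some.injEq, Prod.mk.injEq] at e
      exact big_sub na ha hb hd h2 k1 k2 (s1.le na) (s2.le na) (cl s1 s2 e.1) (cl t1 t2 e.2)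
  obtain ⟨i, j, hij, e⟩ := Finite.exists_ne_map_eq_of_infinite fun i : ℕ => c (i • G)
  wlog h : i < j generalizing i j
  · exact this j i hij.symm e.symm (lt_of_le_of_ne (not_lt.mp h) hij.symm)
  obtain ⟨k, rfl⟩ := Nat.exists_eq_add_of_lt h
  refine ⟨k + 1, k.succ_ne_zero, ?_⟩
  have := key _ _ e.symm
  rwa [add_assoc, add_nsmul, add_sub_cancel_left] at this

lemma dbl_x {x y : F} (h : (cv a b).Nonsingular x y) (hy : y ≠ 0) :
    ∃ y' h', 2 • Point.some x y h = Point.some ((x ^ 2 - b) ^ 2 / (4 * y ^ 2)) y' h' := by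
  obtain ⟨h', e⟩ := add_self_ne h hy
  have e1 := (cv_eq _ _).mp h.1
  unfold fl at e1
  obtain ⟨h'', e'⟩ := some_congr h' (x' := (x ^ 2 - b) ^ 2 / (4 * y ^ 2)) (by
    rw [sX]
    field_simp
    linear_combination (-16 * a - 32 * x) * e1) rfl
  exact ⟨_, h'', by rw [two_nsmul, e, e']⟩

lemma dbl_eq {x1 y1 x2 y2 : F} (h1 : (cv a b).Nonsingular x1 y1) (h2 : (cv a b).Nonsingular x2 y2)
    (e : 2 • Point.some x1 y1 h1 = 2 • Point.some x2 y2 h2) :
    (x1 ^ 2 - b) ^ 2 * fl a b x2 - (x2 ^ 2 - b) ^ 2 * fl a b x1 = 0 := by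
  rw [← (cv_eq _ _).mp h1.1, ← (cv_eq _ _).mp h2.1]
  by_cases hy : y1 = 0
  · have := (two_smul_some h2).mp (e.symm.trans ((two_smul_some h1).mpr hy))
    rw [hy, this]
    ring
  · have hy2 : y2 ≠ 0 := fun k => hy ((two_smul_some h1).mp (e.trans ((two_smul_some h2).mpr k)))
    obtain ⟨_, _, e1⟩ := dbl_x h1 hy
    obtain ⟨_, _, e2⟩ := dbl_x h2 hy2
    have := (Point.some.inj (e1.symm.trans (e.trans e2))).1
    field_simp at this
    linear_combination this

lemma Sp.div (hv : PV p v) {r s : F} {m n k : ℤ} (h : Sp v r m) (h' : Sp v s n)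
    (hn : ¬(p : ℤ) ∣ n) (e : (p : ℤ) ∣ m - n * k) : Sp v (r / s) k := by
  have u := h'.unit hv hn
  have s0 : s ≠ 0 := v.pos_iff.mp (by rw [u]; exact zero_lt_one)
  have := (h.sub hv.na (h'.mul hv.na (sp_int hv.na k))).small hv e
  rw [Sp, show r / s - k = (r - s * k) / s by field_simp, map_div₀, u, div_one]
  exact this

lemma Sp.ne (hv : PV p v) {r : F} {m : ℤ} (h : Sp v r m) (k : ¬(p : ℤ) ∣ m) : r ≠ 0 :=
  v.pos_iff.mp (by rw [h.unit hv k]; exact zero_lt_one)

end Pool.Agent.MP_6a61d2_nt
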