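import Pool.Agent.MP_6a61d2_nt.q2.Grp

/-! Infinitely many rational points on `d w ^ 2 = -3 (8 T ^ 4 - 359 T ^ 2 + 8)` close to a given
one at the primes `19` and `131611`. -/

set_option linter.unusedSectionVars false
set_option linter.unusedVariables false

namespace Pool.Agent.MP_6a61d2_nt

open WeierstrassCurve.Affine

/-- The discriminant of the residual quadratic, as a function of `s = T ^ 2`. -/
def pDl {F : Type} [Field F] (s : F) : F := -3 * (8 * s ^ 2 - 359 * s + 8)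

lemma par_good {p : ℕ} {v : AbsoluteValue ℚ ℝ} (hv : PV p v) {d d0 : ℤ} (h : (p : ℤ) ∣ d - d0)
    (h1 : ¬(p : ℤ) ∣ -24 * d0) (h2 : ¬(p : ℤ) ∣ (1077 * d0) ^ 2 - 4 * (-24 * d0) ^ 2)
    (h3 : ¬(p : ℤ) ∣ 2) :
    v (-24 * d) = 1 ∧ v (1077 * d) ≤ 1 ∧ v ((-24 * d) ^ 2) = 1 ∧
      v ((1077 * d) ^ 2 - 4 * (-24 * d) ^ 2) = 1 ∧ v 2 = 1 := by
  have na := hv.na
  have sd : Sp v d d0 := (sp_int na d).congr hv h
  have sA := (sp_int na (-24)).mul na sd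
  have sB := (sp_int na 1077).mul na sd
  have sC := (sB.pow na 2).sub na ((sp_int na 4).mul na (sA.pow na 2))
  push_cast at sA sB sC
  have uA := sA.unit hv h1
  refine ⟨uA, sB.le na, by rw [v.map_pow, uA, one_pow], sC.unit hv h2, ?_⟩
  simpa using hv.unit h3

theorem par_infinite {c d : ℤ} (hd : d = -3 * (8 * (c ^ 2) ^ 2 - 359 * c ^ 2 + 8)) (c0 : c ≠ 0)
    (c5 : 5 ∣ c) (c1 : 19 ∣ c - 5) (c2 : 131611 ∣ c - 5) {v1 v2 v3 : AbsoluteValue ℚ ℝ}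
    (h1 : PV 19 v1) (h2 : PV 131611 v2) (h3 : PV 5 v3) :
    {z : ℚ × ℚ | d * z.2 ^ 2 = pDl (z.1 ^ 2) ∧ Sp v1 (z.1 ^ 2) 6 ∧ Sp v2 (z.1 ^ 2) 25}.Infinite := by
  have dc : c - 5 ∣ d - 11901 := ⟨-3 * (c + 5) * (8 * c ^ 2 - 159), by rw [hd]; ring⟩
  have sc : c - 5 ∣ c ^ 2 - 25 := ⟨c + 5, by ring⟩
  obtain ⟨a1, b1, e1, f1, g1⟩ := par_good h1 (c1.trans dc) (by decide) (by decide) (by decide)
  obtain ⟨a2, b2, e2, f2, g2⟩ := par_good h2 (c2.trans dc) (by decide) (by decide) (by decide)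
  have hdq : (d : ℚ) = pDl ((c : ℚ) ^ 2) := by rw [hd, pDl]; push_cast; ring
  obtain ⟨A, hA⟩ : ∃ A : ℚ, A = -24 * d := ⟨_, rfl⟩
  obtain ⟨B, hB⟩ : ∃ B : ℚ, B = 1077 * d := ⟨_, rfl⟩
  rw [← hA] at a1 e1 f1 a2 e2 f2
  rw [← hB] at b1 f1 b2 f2
  have A0 : A ≠ 0 := v1.pos_iff.mp (by rw [a1]; exact zero_lt_one)
  have d0 : (d : ℚ) ≠ 0 := fun h => A0 (by rw [hA, h, mul_zero])
  have cq : (c : ℚ) ≠ 0 := Int.cast_ne_zero.mpr c0
  have hΔ : (cv B (A ^ 2)).Δ ≠ 0 := by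
    rw [cv_delta]
    exact mul_ne_zero (mul_ne_zero (by norm_num) (pow_ne_zero 2 (pow_ne_zero 2 A0)))
      (v1.pos_iff.mp (by rw [f1]; exact zero_lt_one))
  have hfl : ∀ T : ℚ, fl B (A ^ 2) (A * T ^ 2) = A ^ 2 * T ^ 2 * d * pDl (T ^ 2) := fun T => by
    rw [fl, pDl, hB, hA]; ring
  have k0 := cv_ns hΔ (x := A * c ^ 2) (y := A * c * d) (by rw [hfl, ← hdq]; ring)
  have nt : ¬IsOfFinAddOrder (Point.some _ _ k0) := by
    intro ht
    obtain ⟨y', k', e⟩ := dbl_x k0 (mul_ne_zero (mul_ne_zero A0 cq) d0)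
    have na := h3.na
    have ht2 := ht.nsmul (n := 2)
    rw [e] at ht2
    refine Point.some_ne_zero k' (Big.eq_zero (by norm_num) h3 ⟨?_, ?_⟩ ((big_some k').mpr ?_) ht2)
    · rw [hB]
      exact_mod_cast na_int na (1077 * d)
    · rw [hA]
      have := na_int na ((-24 * d) ^ (2 : ℕ))
      push_cast at this
      exact this
    · have s0 : Sp v3 c 0 := (sp_int na c).congr h3 (by simpa using c5)
      have u := (((sp_int na 12).mul na ((s0.pow na 4).sub na (sp_int na 1))).unit h3 (by decide))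
      have w := s0.small h3 (by decide)
      have w0 := v3.pos cq
      rw [show ((A * c ^ 2) ^ 2 - A ^ 2) ^ 2 / (4 * (A * c * d) ^ 2) =
        (((12 : ℤ) : ℚ) * (c ^ 4 - ((1 : ℤ) : ℚ)) / c) ^ 2 by
          rw [hA]; push_cast; field_simp; ring, v3.map_pow, map_div₀, u]
      exact one_lt_pow₀ ((one_lt_div w0).mpr w) two_ne_zero
  obtain ⟨m1, n1, B1⟩ := big_multiple (by norm_num) h1 b1 e1 f1 g1 (Point.some _ _ k0)
  obtain ⟨m2, n2, B2⟩ := big_multiple (by norm_num) h2 b2 e2 f2 g2 (Point.some _ _ k0)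
  have inj := injective_nsmul_iff_not_isOfFinAddOrder.mpr nt
  have t1 : Sp v1 ((c : ℚ) ^ 2) 6 :=
    ((sp_int h1.na c).pow h1.na 2).congr h1 (by
      have := (c1.trans sc).add (dvd_refl 19)
      rwa [show c ^ 2 - 25 + 19 = c ^ 2 - 6 by ring] at this)
  have t2 : Sp v2 ((c : ℚ) ^ 2) 25 := ((sp_int h2.na c).pow h2.na 2).congr h2 (c2.trans sc)
  have i1 : v1 (A * c ^ 2) = 1 := by rw [v1.map_mul, a1, t1.unit h1 (by decide), one_mul]
  have i2 : v2 (A * c ^ 2) ≤ 1 := mul_le_both a2.le (t2.le h2.na)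
  have main : ∀ n : ℕ, ∃ z : ℚ × ℚ,
      (d * z.2 ^ 2 = pDl (z.1 ^ 2) ∧ Sp v1 (z.1 ^ 2) 6 ∧ Sp v2 (z.1 ^ 2) 25) ∧
      ∃ h, (1 + m1 * m2 * (n + 1) + m1 * m2 * (n + 1)) • Point.some _ _ k0 =
        Point.some (A * z.1 ^ 2) (A * z.1 * d * z.2) h := by
    intro n
    have S1 : Big v1 ((m1 * m2 * (n + 1)) • Point.some _ _ k0) := by
      rw [mul_assoc, mul_nsmul]
      exact (B1.nsmul h1.na ⟨b1, e1.le⟩ _).1
    have S2 : Big v2 ((m1 * m2 * (n + 1)) • Point.some _ _ k0) := by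
      rw [mul_comm m1, mul_assoc, mul_nsmul]
      exact (B2.nsmul h2.na ⟨b2, e2.le⟩ _).1
    have S0 : (m1 * m2 * (n + 1)) • Point.some _ _ k0 ≠ 0 := fun h =>
      mul_ne_zero (mul_ne_zero n1 n2) n.succ_ne_zero (inj (h.trans (zero_nsmul _).symm))
    obtain ⟨x, y, h, m, e, hm, hw⟩ := add_twice h1.na ⟨b1, e1.le⟩ k0 i1 S1 S0
    have r1 := hw v1 h1.na ⟨b1, e1.le⟩ i1.le S1
    have r2 := hw v2 h2.na ⟨b2, e2.le⟩ i2 S2
    obtain ⟨T, hT⟩ : ∃ T : ℚ, x = A * T ^ 2 := ⟨m / (A * c), by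
      rw [div_pow, ← hm]; field_simp⟩
    subst hT
    rw [← mul_sub, AbsoluteValue.map_mul] at r1 r2
    rw [a1, one_mul] at r1
    rw [a2, one_mul] at r2
    have q1 : Sp v1 (T ^ 2) 6 := by
      rw [Sp, show T ^ 2 - ((6 : ℤ) : ℚ) = (T ^ 2 - c ^ 2) + (c ^ 2 - ((6 : ℤ) : ℚ)) by ring]
      exact na_add_lt h1.na r1 t1
    have q2 : Sp v2 (T ^ 2) 25 := by
      rw [Sp, show T ^ 2 - ((25 : ℤ) : ℚ) = (T ^ 2 - c ^ 2) + (c ^ 2 - ((25 : ℤ) : ℚ)) by ring]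
      exact na_add_lt h2.na r2 t2
    have T0 : T ≠ 0 := fun k => q1.ne h1 (by decide) (by rw [k]; ring)
    have ey := (cv_eq _ _).mp h.1
    rw [hfl] at ey
    obtain ⟨h', e'⟩ := some_congr h rfl (y' := A * T * d * (y / (A * T * d))) (by field_simp)
    refine ⟨(T, y / (A * T * d)), ⟨?_, q1, q2⟩, h', ?_⟩
    · change d * (y / (A * T * d)) ^ 2 = pDl (T ^ 2)
      rw [div_pow, ey]
      field_simp
    · rw [add_nsmul, add_nsmul, one_nsmul, e, e']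
  choose f hf h e using main
  refine Set.infinite_of_injective_forall_mem (f := f) (fun i j hij => ?_) hf
  have := inj ((e i).trans ((some_ext (by rw [hij]) (by rw [hij])).trans (e j).symm))
  have k : m1 * m2 * (i + 1) = m1 * m2 * (j + 1) := by omega
  simpa [n1, n2] using k

end Pool.Agent.MP_6a61d2_nt
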